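import Mathlib
import Pool.Agent.H.MP_462fed_al.Tab

namespace Pool.Agent.H.MP_462fed_al

open Equiv

def T (r : Fin 40) : Perm (Fin 40) := ⟨t r, fun x => t r (t r x), F1 r, F1 r⟩

@[simp] lemma T_apply (r x : Fin 40) : T r x = t r x := rfl

def G : Subgroup (Perm (Fin 40)) := Subgroup.closure (Set.range fun i => T (gen i))

lemma equi {g : Perm (Fin 40)} (hg : g ∈ G) : ∀ p x, g (t p x) = t (g p) (g x) := by
  induction hg using Subgroup.closure_induction with
  | mem g h => obtain ⟨i, rfl⟩ := h; exact F2 i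
  | one => intro p x; rfl
  | mul g h _ _ ihg ihh => intro p x; simp only [Perm.mul_apply]; rw [ihh, ihg]
  | inv g _ ih =>
    intro p x
    apply g.injective
    rw [ih]; simp

lemma conjT {g : Perm (Fin 40)} (hg : g ∈ G) (p : Fin 40) : g * T p * g⁻¹ = T (g p) := by
  ext x
  simp [equi hg]

lemma trans0 (p : Fin 40) : ∃ g ∈ G, g 0 = p := by
  induction h : bd p using Nat.strong_induction_on generalizing p with
  | _ n ih =>
    by_cases hp : p = 0
    · exact ⟨1, G.one_mem, hp.symm⟩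
    · obtain ⟨h1, h2⟩ := F7 p hp
      obtain ⟨g, hg, hg0⟩ := ih _ (h ▸ h2) (bp p) rfl
      refine ⟨T (gen (bi p)) * g, G.mul_mem (Subgroup.subset_closure ⟨_, rfl⟩) hg, ?_⟩
      simp [hg0, h1]

lemma T_mem (p : Fin 40) : T p ∈ G := by
  obtain ⟨g, hg, rfl⟩ := trans0 p
  rw [← conjT hg]
  exact G.mul_mem (G.mul_mem hg (Subgroup.subset_closure ⟨0, rfl⟩)) (G.inv_mem hg)

def τ (p : Fin 40) : G := ⟨T p, T_mem p⟩

lemma conjτ (g : G) (p : Fin 40) : g * τ p * g⁻¹ = τ (g.1 p) :=
  Subtype.ext (conjT g.2 p)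

lemma τ_cube (p : Fin 40) : τ p ^ 3 = 1 := by
  apply Subtype.ext
  ext x
  simp [τ, pow_succ, F1]

def w : G := τ 0 * τ 1 * τ 4 * τ 14

lemma w_five : w ^ 5 = 1 := by
  apply Subtype.ext
  apply Equiv.ext
  intro x
  have := F9 x
  simp only [Function.iterate_succ, Function.comp, Function.iterate_zero, id] at this
  simpa [w, τ, pow_succ] using this

lemma ok_sound (q : Fin 40) (P : Fin 40 → Prop)
    (hP : ∀ r s y, P (t r (t s 0)) → P y → P (t r (t s y))) (n : ℕ) :
    ∀ B : ℕ, (∀ x : Fin 40, B.testBit x.val = true → P x) → ok q n B = true → ∀ x, P x := by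
  induction n with
  | zero =>
    intro B hB h x
    have : B = 2 ^ 40 - 1 := by simpa [ok] using h
    apply hB
    rw [this, Nat.testBit_two_pow_sub_one]
    simp
  | succ n ih =>
    intro B hB h
    simp only [ok, Bool.and_eq_true] at h
    refine ih _ ?_ h.2
    intro x hx
    rw [Nat.testBit_or, Bool.or_eq_true] at hx
    rcases hx with hx | hx
    · exact hB x hx
    · rw [Nat.testBit_two_pow, decide_eq_true_eq] at hx
      rw [← Fin.ext hx]
      exact hP _ _ _ (hB _ h.1.1) (hB _ h.1.2)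

lemma τ_ne : τ 0 ≠ 1 := by
  intro h
  apply F10
  have : ∀ x, t 0 x = x := fun x => congrArg (fun g : G => g.1 x) h
  intro p x; rw [this, this]

instance : Nontrivial G := ⟨⟨τ 0, 1, τ_ne⟩⟩

instance simple : IsSimpleGroup G where
  eq_bot_or_eq_top_of_normal N hN := by
    rcases N.bot_or_exists_ne_one with h | ⟨n, hn, hn1⟩
    · exact Or.inl h
    right
    have : ∃ p, n.1 p ≠ p := by
      by_contra hc
      push Not at hc
      exact hn1 (Subtype.ext (Equiv.ext hc))
    obtain ⟨p, hp⟩ := this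
    obtain ⟨g, hg, rfl⟩ := trans0 p
    let n' : G := (⟨g, hg⟩ : G)⁻¹ * n * (⟨g, hg⟩ : G)⁻¹⁻¹
    have hn' : n' ∈ N := hN.conj_mem _ hn _
    have hq : n'.1 0 ≠ 0 := by
      intro h
      apply hp
      have : g⁻¹ (n.1 (g 0)) = 0 := h
      rw [← this]; simp [this]
      exact (Perm.inv_eq_iff_eq.1 this)
    have hall : ∀ x, ∃ m ∈ N, m.1 0 = x := by
      refine ok_sound (n'.1 0) (fun x => ∃ m ∈ N, m.1 0 = x) ?_ 38 _ ?_ (F8 _ hq)
      · rintro r s y ⟨m, hm, h1⟩ ⟨m', hm', rfl⟩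
        refine ⟨(τ r * τ s) * m' * (τ r * τ s)⁻¹ * m, N.mul_mem (hN.conj_mem _ hm' _) hm, ?_⟩
        change ((T r * T s) * m'.1 * (T r * T s)⁻¹ * m.1) 0 = _
        rw [Perm.mul_apply, h1]
        have : t r (t s 0) = (T r * T s) 0 := rfl
        have e : (T r * T s)⁻¹ ((T r * T s) 0) = 0 := Perm.inv_eq_iff_eq.2 rfl
        rw [this, Perm.mul_apply, e]
        rfl
      · intro x hx
        rw [Nat.testBit_or, Bool.or_eq_true, Nat.testBit_two_pow, Nat.testBit_two_pow,
          decide_eq_true_eq, decide_eq_true_eq] at hx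
        rcases hx with hx | hx
        · exact ⟨n', hn', Fin.ext hx⟩
        · exact ⟨1, N.one_mem, Fin.ext hx⟩
    let π := QuotientGroup.mk' N
    have h1 : ∀ x, π (τ x) = π (τ 0) := by
      intro x
      obtain ⟨m, hm, rfl⟩ := hall x
      have : π m = 1 := (QuotientGroup.eq_one_iff _).2 hm
      rw [← conjτ, map_mul, map_mul, map_inv, this]; simp
    have h2 : π (τ 0) ^ 3 = 1 := by rw [← map_pow, τ_cube, map_one]
    have h3 : π (τ 0) ^ 20 = 1 := by
      have : π w = π (τ 0) ^ 4 := by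
        simp only [w, map_mul, h1 1, h1 4, h1 14, pow_succ, pow_zero, one_mul]
      rw [show 20 = 4 * 5 from rfl, pow_mul, ← this, ← map_pow, w_five, map_one]
    have h4 : π (τ 0) = 1 := by
      have : π (τ 0) ^ 21 = 1 := by rw [show 21 = 3 * 7 from rfl, pow_mul, h2, one_pow]
      rwa [pow_succ, h3, one_mul] at this
    have h5 : ∀ x, τ x ∈ N := fun x => (QuotientGroup.eq_one_iff _).1 ((h1 x).trans h4)
    rw [eq_top_iff]
    rintro ⟨g, hg⟩ -
    induction hg using Subgroup.closure_induction with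
    | mem g h => obtain ⟨i, rfl⟩ := h; exact h5 _
    | one => exact N.one_mem
    | mul g h _ _ ihg ihh => exact N.mul_mem ihg ihh
    | inv g _ ih => exact N.inv_mem ih

lemma common0 (b c : Fin 40) : ∃ p, t 0 p = p ∧ t b p = p ∧ t c p = p := by
  obtain ⟨i, hi⟩ := Nat.exists_testBit_of_ne_zero (F4 b c)
  simp only [Nat.testBit_and, Bool.and_eq_true] at hi
  have hlt : i < 40 := by
    by_contra hc
    have : (mask 0).testBit i = false := by
      apply Nat.testBit_lt_two_pow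
      exact lt_of_lt_of_le (Nat.mod_lt _ (by norm_num)) (Nat.pow_le_pow_right (by norm_num) (by omega))
    rw [this] at hi
    exact absurd hi.1.1 (by simp)
  exact ⟨⟨i, hlt⟩, F3 _ _ hi.1.1, F3 _ _ hi.1.2, F3 _ _ hi.2⟩

lemma common (a b c : Fin 40) : ∃ p, t a p = p ∧ t b p = p ∧ t c p = p := by
  obtain ⟨g, hg, rfl⟩ := trans0 a
  obtain ⟨p, h1, h2, h3⟩ := common0 (g⁻¹ b) (g⁻¹ c)
  refine ⟨g p, ?_, ?_, ?_⟩
  · rw [← equi hg, h1]
  · have := equi hg (g⁻¹ b) p
    rw [h2] at this; simpa using this.symm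
  · have := equi hg (g⁻¹ c) p
    rw [h3] at this; simpa using this.symm

lemma fix_of_pow {g : Perm (Fin 40)} (h5 : g ^ 5 = 1) {k : ℕ} (hk : Nat.Coprime k 5)
    {q : Fin 40} (h : (g ^ k) q = q) : g q = q := by
  have a : Function.IsPeriodicPt g k q := by
    unfold Function.IsPeriodicPt Function.IsFixedPt; rw [← Perm.coe_pow]; exact h
  have b : Function.IsPeriodicPt g 5 q := by
    unfold Function.IsPeriodicPt Function.IsFixedPt; rw [← Perm.coe_pow, h5]; rfl
  have := a.gcd b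
  rw [hk] at this
  exact this

lemma nb0 {g : Perm (Fin 40)} (hg : g ∈ G) (h5 : g ^ 5 = 1) (h0 : g 0 = 0) (q : Fin 40)
    (hq : t 0 q = q) : g q = q := by
  by_cases hq0 : q = 0
  · rw [hq0, h0]
  have z : ∀ k : ℕ, (g ^ k) 0 = 0 := fun k => Perm.pow_apply_eq_self_of_apply_eq_self h0 k
  have a1 : ∀ k : ℕ, t 0 ((g ^ k) q) = (g ^ k) q := by
    intro k
    have := equi (G.pow_mem hg k) 0 q
    rw [z, hq] at this; exact this.symm
  have a2 : ∀ k : ℕ, (g ^ k) q ≠ 0 := by
    intro k h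
    exact hq0 ((g ^ k).injective (h.trans (z k).symm))
  have shift : ∀ i j l : ℕ, ln ((g ^ i) q) = ln ((g ^ j) q) →
      ln ((g ^ (l + i)) q) = ln ((g ^ (l + j)) q) := by
    intro i j l h
    rw [(F5 _ (a1 _) (a2 _) _ (a1 _) (a2 _)).1] at h ⊢
    rw [pow_add, pow_add, Perm.mul_apply, Perm.mul_apply, ← equi (G.pow_mem hg l), h]
  have per : ∀ i, (g ^ (5 + i)) q = (g ^ i) q := by
    intro i; rw [pow_add, h5, one_mul]
  obtain ⟨k, hk1, hk2, hk⟩ : ∃ k, 0 < k ∧ k < 5 ∧ ln ((g ^ 0) q) = ln ((g ^ k) q) := by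
    have aux : ∀ i j : Fin 5, i < j → ln ((g ^ i.val) q) = ln ((g ^ j.val) q) →
        ∃ k, 0 < k ∧ k < 5 ∧ ln ((g ^ 0) q) = ln ((g ^ k) q) := by
      intro i j hij h
      have hij' : i.val < j.val := hij
      refine ⟨j.val - i.val, by omega, by omega, ?_⟩
      have := shift _ _ (5 - i.val) h
      rw [show 5 - i.val + i.val = 5 + 0 by omega, show 5 - i.val + j.val = 5 + (j.val - i.val) by omega,
        per, per] at this
      exact this
    obtain ⟨i, j, hij, h⟩ := Fintype.exists_ne_map_eq_of_card_lt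
      (fun i : Fin 5 => ln ((g ^ i.val) q)) (by simp)
    rcases lt_or_gt_of_ne hij with h' | h'
    · exact aux i j h' h
    · exact aux j i h' h.symm
  have c : ∀ m : ℕ, ln ((g ^ (m * k)) q) = ln ((g ^ 0) q) := by
    intro m
    induction m with
    | zero => simp
    | succ m ih =>
      have := shift _ _ (m * k) hk
      rw [← ih, Nat.succ_mul, ← this]; simp
  have aux : ∀ i j : Fin 4, i < j → ps ((g ^ (i.val * k)) q) = ps ((g ^ (j.val * k)) q) →
      g q = q := by
    intro i j hij h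
    have hij' : i.val < j.val := hij
    have e := (F5 _ (a1 _) (a2 _) _ (a1 _) (a2 _)).2 ((c i).trans (c j).symm) h
    have e2 : (g ^ ((j.val - i.val) * k)) q = q := by
      apply (g ^ (i.val * k)).injective
      rw [← Perm.mul_apply, ← pow_add, ← Nat.add_mul, show i.val + (j.val - i.val) = j.val by omega, e]
    refine fix_of_pow h5 ?_ e2
    have : j.val - i.val = 1 ∨ j.val - i.val = 2 ∨ j.val - i.val = 3 := by omega
    rcases this with h | h | h <;> rw [h] <;> interval_cases k <;> norm_num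
  obtain ⟨i, j, hij, h⟩ := Fintype.exists_ne_map_eq_of_card_lt
    (fun i : Fin 4 => ps ((g ^ (i.val * k)) q)) (by simp)
  rcases lt_or_gt_of_ne hij with h' | h'
  · exact aux i j h' h
  · exact aux j i h' h.symm

lemma nb {g : Perm (Fin 40)} (hg : g ∈ G) (h5 : g ^ 5 = 1) {p : Fin 40} (h0 : g p = p)
    (q : Fin 40) (hq : t p q = q) : g q = q := by
  obtain ⟨h, hh, rfl⟩ := trans0 p
  have := nb0 (g := h⁻¹ * g * h⁻¹⁻¹) (G.mul_mem (G.mul_mem (G.inv_mem hh) hg) (G.inv_mem (G.inv_mem hh)))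
    (by rw [conj_pow, h5]; simp) (by simp [h0]) (h⁻¹ q) (by
      apply h.injective
      rw [equi hh]; simp [hq])
  simpa using this

lemma eq_one_of_fix {g : Perm (Fin 40)} (hg : g ∈ G) (h5 : g ^ 5 = 1) {p : Fin 40}
    (h0 : g p = p) : g = 1 := by
  ext q
  obtain ⟨r, h1, h2, -⟩ := common p q q
  have := nb hg h5 (nb hg h5 h0 r h1) q (Fsym _ _ h2)
  simp [this]

lemma not_five {m : ℕ} (a : Fin m → Fin 40) (p : Fin 40) (hp : ∀ i, t (a i) p = p) :
    ¬ 5 ∣ Nat.card (Subgroup.closure (Set.range fun i => τ (a i))) := by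
  intro h
  haveI : Fact (Nat.Prime 5) := ⟨by norm_num⟩
  obtain ⟨k, hk⟩ := exists_prime_orderOf_dvd_card' 5 h
  have hfix : ∀ g ∈ Subgroup.closure (Set.range fun i => τ (a i)), g.1 p = p := by
    intro g hg
    induction hg using Subgroup.closure_induction with
    | mem g h => obtain ⟨i, rfl⟩ := h; exact hp i
    | one => rfl
    | mul g h _ _ ihg ihh =>
      change g.1 (h.1 p) = p
      rw [ihh, ihg]
    | inv g _ ih => exact Perm.inv_eq_iff_eq.2 ih.symm
  have h5 : k.1.1 ^ 5 = 1 := by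
    have : k ^ 5 = 1 := hk ▸ pow_orderOf_eq_one k
    exact congrArg (fun z => z.1.1) this
  have h1 := eq_one_of_fix k.1.2 h5 (hfix _ k.2)
  have : k = 1 := Subtype.ext (Subtype.ext h1)
  rw [this, orderOf_one] at hk
  omega

lemma conj_ne {s : G} (h : MulAut.conj s = 1) : ∀ p x, s.1 (t p x) = t p (s.1 x) := by
  intro p x
  have h1 : s * τ p * s⁻¹ = τ p := by
    have := congrArg (fun f : MulAut G => f (τ p)) h
    simpa using this
  have h2 : s * τ p = τ p * s := mul_inv_eq_iff_eq_mul.1 h1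
  exact congrArg (fun g : G => g.1 x) h2

def Gen (S : Type) [Group S] (r : ℕ) (x : MulAut S) (m : ℕ) : Prop :=
  ∃ c : Fin m → MulAut S,
    (∀ i, c i ∈ (MulAut.conj : S →* MulAut S).range ⊔ Subgroup.zpowers x) ∧
    r ∣ Nat.card (Subgroup.closure (Set.range fun i => c i * x * (c i)⁻¹))

theorem main : ∃ (S : Type) (_ : Group S) (_ : Finite S) (_ : IsSimpleGroup S),
    (∃ a b : S, a * b ≠ b * a) ∧ 5 ∣ Nat.card S ∧
    ∃ x : MulAut S, orderOf x = 3 ∧ IsLeast {m : ℕ | 1 ≤ m ∧ Gen S 5 x m} 4 := by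
  haveI : Fact (Nat.Prime 5) := ⟨by norm_num⟩
  haveI : Fact (Nat.Prime 3) := ⟨by norm_num⟩
  have hw : MulAut.conj w ≠ 1 := fun h => F11 (conj_ne h)
  have hx : MulAut.conj (τ 0) ≠ 1 := fun h => F10 (conj_ne h)
  refine ⟨G, inferInstance, inferInstance, simple, ?_, ?_, MulAut.conj (τ 0), ?_, ⟨by norm_num, ?_⟩, ?_⟩
  · by_contra hc
    push Not at hc
    apply hx
    ext y : 1
    simp [hc (τ 0) y]
  · have : orderOf w = 5 := orderOf_eq_prime w_five (fun h => hw (by rw [h, map_one]))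
    exact this ▸ orderOf_dvd_natCard w
  · exact orderOf_eq_prime (by rw [← map_pow, τ_cube, map_one]) hx
  · choose h hh h0 using fun i : Fin 4 => trans0 (gen i)
    refine ⟨fun i => MulAut.conj ⟨h i, hh i⟩, fun i => Subgroup.mem_sup_left ⟨_, rfl⟩, ?_⟩
    have e : ∀ i, MulAut.conj (⟨h i, hh i⟩ : G) * MulAut.conj (τ 0) * (MulAut.conj (⟨h i, hh i⟩ : G))⁻¹ =
        MulAut.conj (τ (gen i)) := by
      intro i
      rw [← map_inv, ← map_mul, ← map_mul, conjτ, h0]
    simp only [e]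
    have ho : orderOf (MulAut.conj w) = 5 :=
      orderOf_eq_prime (by rw [← map_pow, w_five, map_one]) hw
    rw [← ho]
    apply Subgroup.orderOf_dvd_natCard
    simp only [w, map_mul]
    exact Subgroup.mul_mem _ (Subgroup.mul_mem _ (Subgroup.mul_mem _
      (Subgroup.subset_closure ⟨0, rfl⟩) (Subgroup.subset_closure ⟨1, rfl⟩))
      (Subgroup.subset_closure ⟨2, rfl⟩)) (Subgroup.subset_closure ⟨3, rfl⟩)
  · rintro m ⟨hm, c, hc, hd⟩
    by_contra hlt
    have hsup : (MulAut.conj : G →* MulAut G).range ⊔ Subgroup.zpowers (MulAut.conj (τ 0)) =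
        (MulAut.conj : G →* MulAut G).range := by
      apply sup_eq_left.2
      rw [Subgroup.zpowers_le]
      exact ⟨_, rfl⟩
    rw [hsup] at hc
    choose g hg using hc
    have e : (fun i => c i * MulAut.conj (τ 0) * (c i)⁻¹) =
        (MulAut.conj : G →* MulAut G) ∘ fun i => τ ((g i).1 0) := by
      funext i
      rw [← hg i, ← map_inv, ← map_mul, ← map_mul, conjτ]; rfl
    rw [e, Set.range_comp, ← MonoidHom.map_closure] at hd
    have hd2 := hd.trans (Subgroup.card_map_dvd _ _)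
    obtain ⟨p, h1, h2, h3⟩ := common ((g ⟨0, by omega⟩).1 0) ((g ⟨(m - 1) / 2, by omega⟩).1 0)
      ((g ⟨m - 1, by omega⟩).1 0)
    refine not_five _ p ?_ hd2
    rintro ⟨i, hi⟩
    have : i = 0 ∨ i = (m - 1) / 2 ∨ i = m - 1 := by omega
    rcases this with rfl | rfl | rfl
    · exact h1
    · exact h2
    · exact h3

end Pool.Agent.H.MP_462fed_al
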